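import Pool.Agent.ATZ.Stmts1
import Pool.Agent.Helper48_AT5.CO3
import Pool.Agent.Helper49_AT3.BRG

/-!
# Squad ATZ, row MMO: orthogonality of the sections
-/

open scoped BigOperators

noncomputable section

namespace Pool.Agent.PP.TB.H45

open Pool.Agent.Helper51_AWC Pool.Agent.Helper79_WRA Pool.Agent.PP Pool.Agent.PP.KF
open Pool.Agent.PP.K9 Pool.Agent.PP.K9.H97 Pool.Agent.PP.H75 Pool.Agent.PP.T3 Pool.Agent.PP.T2
open Pool.Agent.PP.T5

attribute [local instance] Ideal.Quotient.field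

section

variable {G : Type} [Group G] [Fintype G] {M : Ideal (integralClosure ℤ ℂ)} [M.IsMaximal]

open Classical in
/-- the regular elements of the subgroup `C` -/
def rg (ℓ : ℕ) (C : Subgroup G) : Finset G := Finset.univ.filter (fun s => s ∈ C ∧ Reg ℓ s)

theorem mem_rg {ℓ : ℕ} {C : Subgroup G} {s : G} : s ∈ rg ℓ C ↔ s ∈ C ∧ Reg ℓ s := by
  classical
  unfold rg
  rw [Finset.mem_filter]
  exact ⟨fun h => h.2, fun h => ⟨Finset.mem_univ _, h⟩⟩

theorem fsum_rg (ℓ : ℕ) (C : Subgroup G) (F : G → ℂ) :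
    ∑ᶠ (s : G) (_ : s ∈ C ∧ Reg ℓ s), F s = ∑ s ∈ rg ℓ C, F s := by
  classical
  unfold rg
  rw [Finset.sum_filter, ← finsum_eq_sum_of_fintype]
  exact finsum_congr fun c => finsum_eq_if

theorem mm_eq (ℓ : ℕ) (C : Subgroup G) (w : G) (b : G → FF M) (χ ψ : G → ℂ) :
    mm M ℓ C w b χ ψ = (Nat.card C : ℂ)⁻¹ * ∑ s ∈ rg ℓ C,
      gv M C (w * s) b χ * starRingEnd ℂ (gv M C (w * s) b ψ) := by
  unfold mm
  rw [fsum_rg]

theorem kr_star (C : Subgroup G) (b : G → FF M) (s g : G) :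
    starRingEnd ℂ (T5.kr M C b s g) = T5.kr M C b g s := by
  rw [T5.H48.kr_eq, T5.H48.kr_eq, map_sum]
  refine Finset.sum_congr rfl fun κ _ => ?_
  rw [map_mul, Complex.conj_conj, mul_comm]

/-- the kernel is idempotent on the regular elements -/
theorem kr_idem {ℓ : ℕ} [Fact ℓ.Prime] (hM : (ℓ : integralClosure ℤ ℂ) ∈ M)
    {C : Subgroup G} {b : G → FF M} (hb : Ix C b) {s : G} (hs : s ∈ rg ℓ C) (c : G) :
    ∑ t ∈ rg ℓ C, T5.kr M C b s t * T5.kr M C b t c = (Nat.card C : ℂ) * T5.kr M C b s c := by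
  obtain ⟨hsC, hsr⟩ := mem_rg.1 hs
  rw [← T5.H48.kr_mul C b s c, ← fsum_rg,
    T5.H48.drop_P (P := fun t : G => t ∈ C ∧ Reg ℓ t)
      (F := fun t => T5.kr M C b s t * T5.kr M C b t c)]
  · refine finsum_congr fun t => ?_
    rw [kr_star]
  · intro t ht
    have h0 : T5.kr M C b s t = 0 := by
      by_cases htC : t ∈ C
      · exact T5.H48.kr_sing hM hb hsC hsr (fun h => ht ⟨htC, h⟩)
      · exact T5.H48.kr_right htC
    simp only [h0, zero_mul]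

/-- the expansion of the sum of the products -/
theorem expand (ℓ : ℕ) (C C' : Subgroup G) (w w' : G) (b b' : G → FF M) (χ₀ : G → ℂ) :
    ∑ᶠ χ ∈ Irr G, mm M ℓ C w b χ χ₀ * starRingEnd ℂ (mm M ℓ C' w' b' χ χ₀) =
      (Nat.card C : ℂ)⁻¹ * (Nat.card C' : ℂ)⁻¹ * ∑ s ∈ rg ℓ C, ∑ s' ∈ rg ℓ C',
        starRingEnd ℂ (gv M C (w * s) b χ₀) * gv M C' (w' * s') b' χ₀ *
          ∑ᶠ χ ∈ Irr G, gv M C (w * s) b χ * starRingEnd ℂ (gv M C' (w' * s') b' χ) := by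
  classical
  have hfin : (Irr G).Finite := T3.H49.irr_fin G
  rw [finsum_mem_eq_finite_toFinset_sum _ hfin]
  have h1 : ∀ χ ∈ hfin.toFinset,
      mm M ℓ C w b χ χ₀ * starRingEnd ℂ (mm M ℓ C' w' b' χ χ₀) =
        (Nat.card C : ℂ)⁻¹ * (Nat.card C' : ℂ)⁻¹ * ∑ s ∈ rg ℓ C, ∑ s' ∈ rg ℓ C',
          starRingEnd ℂ (gv M C (w * s) b χ₀) * gv M C' (w' * s') b' χ₀ *
            (gv M C (w * s) b χ * starRingEnd ℂ (gv M C' (w' * s') b' χ)) := by
    intro χ _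
    rw [mm_eq, mm_eq, map_mul, map_inv₀, map_natCast, map_sum, mul_mul_mul_comm,
      Finset.sum_mul_sum]
    congr 1
    refine Finset.sum_congr rfl fun s _ => Finset.sum_congr rfl fun s' _ => ?_
    rw [map_mul, Complex.conj_conj]
    ring
  rw [Finset.sum_congr rfl h1, ← Finset.mul_sum, Finset.sum_comm]
  congr 1
  refine Finset.sum_congr rfl fun s _ => ?_
  rw [Finset.sum_comm]
  refine Finset.sum_congr rfl fun s' _ => ?_
  rw [finsum_mem_eq_finite_toFinset_sum _ hfin, Finset.mul_sum]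

end

theorem mmo (zcp : ZcpStmt) (co3 : T5.Co3Stmt) (co5 : T5.Co5Stmt) (ker : T5.KerStmt) :
    MmoStmt := by
  intro ℓ hℓ M _ hM G _ _ e V Z γ b hZ z hz z' hz' χ₀ hχ₀
  classical
  have := Fintype.ofFinite G
  have hEl : ∀ y ∈ Z, El ℓ y := by
    intro y hy
    obtain ⟨n, hn⟩ := hZ.tp.pg ⟨y, hZ.le hy⟩
    exact ⟨n, congrArg Subtype.val hn⟩
  have hIx : ∀ y ∈ Z, Ix (Cu y) (b y) := fun y hy => (hZ.lb y hy).1.bx.ix
  constructor
  · rintro ⟨t, ht, htz⟩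
    -- the same sections
    have h1 : ∀ χ ∈ Irr G, mm M ℓ (Cu z') z' (b z') χ χ₀ = mm M ℓ (Cu z) z (b z) χ χ₀ := by
      intro χ hχ
      have h2 := ((zcp ℓ M hM G e V Z γ b hZ).1 z' hz' t ht).2.2 χ hχ χ₀ hχ₀
      rw [htz] at h2
      exact h2.symm
    have h2 : ∑ᶠ χ ∈ Irr G, mm M ℓ (Cu z) z (b z) χ χ₀ *
        starRingEnd ℂ (mm M ℓ (Cu z') z' (b z') χ χ₀) =
        ∑ᶠ χ ∈ Irr G, mm M ℓ (Cu z) z (b z) χ χ₀ *
        starRingEnd ℂ (mm M ℓ (Cu z) z (b z) χ χ₀) :=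
      finsum_mem_congr rfl fun χ hχ => by rw [h1 χ hχ]
    rw [h2, expand]
    set C := Cu z with hC
    set f : G → ℂ := fun s => gv M C (z * s) (b z) χ₀ with hf
    have hcard : (Nat.card C : ℂ) ≠ 0 := by exact_mod_cast Nat.card_pos.ne'
    have hzc : ∀ c ∈ Cu z, z * c = c * z := fun c hc =>
      (Subgroup.mem_centralizer_singleton_iff.1 hc).symm
    -- the kernel fixes `f`
    have hfix : ∀ s ∈ rg ℓ C, ∑ s' ∈ rg ℓ C, f s' * T5.kr M C (b z) s s' =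
        (Nat.card C : ℂ) * f s := by
      intro s hs
      have hk : ∀ t ∈ rg ℓ C, f t = (Nat.card C : ℂ)⁻¹ *
          ∑ c ∈ rg ℓ C, T5.kr M C (b z) t c * χ₀ (z * c) := by
        intro t ht
        obtain ⟨htC, htr⟩ := mem_rg.1 ht
        rw [← fsum_rg]
        exact ker ℓ M hM G z z hzc (b z) (hIx z hz) t htC htr χ₀ hχ₀
      have e1 : ∑ s' ∈ rg ℓ C, f s' * T5.kr M C (b z) s s' =
          ∑ s' ∈ rg ℓ C, ∑ c ∈ rg ℓ C, (Nat.card C : ℂ)⁻¹ * χ₀ (z * c) *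
            (T5.kr M C (b z) s s' * T5.kr M C (b z) s' c) := by
        refine Finset.sum_congr rfl fun s' hs' => ?_
        rw [hk s' hs', mul_assoc, Finset.sum_mul, Finset.mul_sum]
        refine Finset.sum_congr rfl fun c _ => ?_
        ring
      rw [e1, Finset.sum_comm, hk s hs, Finset.mul_sum, Finset.mul_sum]
      refine Finset.sum_congr rfl fun c _ => ?_
      rw [← Finset.mul_sum, kr_idem hM (hIx z hz) hs]
      ring
    have h3 : ∀ s ∈ rg ℓ C, ∑ s' ∈ rg ℓ C,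
        starRingEnd ℂ (gv M C (z * s) (b z) χ₀) * gv M C (z * s') (b z) χ₀ *
          ∑ᶠ χ ∈ Irr G, gv M C (z * s) (b z) χ * starRingEnd ℂ (gv M C (z * s') (b z) χ) =
        (Nat.card C : ℂ) * (f s * starRingEnd ℂ (f s)) := by
      intro s hs
      have e1 : ∀ s' ∈ rg ℓ C,
          starRingEnd ℂ (gv M C (z * s) (b z) χ₀) * gv M C (z * s') (b z) χ₀ *
          ∑ᶠ χ ∈ Irr G, gv M C (z * s) (b z) χ * starRingEnd ℂ (gv M C (z * s') (b z) χ) =
          starRingEnd ℂ (f s) * (f s' * T5.kr M C (b z) s s') := by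
        intro s' hs'
        rw [co3 ℓ M hM G z (hEl z hz) (b z) (hIx z hz) s (mem_rg.1 hs).1 (mem_rg.1 hs).2 s'
          (mem_rg.1 hs').1 (mem_rg.1 hs').2, mul_assoc]
      rw [Finset.sum_congr rfl e1, ← Finset.mul_sum, hfix s hs]
      ring
    rw [Finset.sum_congr rfl h3, ← Finset.mul_sum, mm_eq, ← mul_assoc, mul_assoc (Nat.card C : ℂ)⁻¹,
      inv_mul_cancel₀ hcard, mul_one]
  · intro hno
    rw [expand]
    have h0 : ∀ x : G, x * z' * x⁻¹ = z → mulF (b z) (cj x (b z')) = 0 := by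
      intro x hx
      have hb1 := (hZ.lb z hz).1.bx
      have hb2 := T3.H49.bx_cj hx (hZ.lb z' hz').1.bx
      rcases hb1.dich hb2 with h | h
      · exact absurd (hZ.fus z hz z' hz' x hx h.symm) hno
      · exact h
    have h1 : ∀ s ∈ rg ℓ (Cu z), ∑ s' ∈ rg ℓ (Cu z'),
        starRingEnd ℂ (gv M (Cu z) (z * s) (b z) χ₀) * gv M (Cu z') (z' * s') (b z') χ₀ *
          ∑ᶠ χ ∈ Irr G, gv M (Cu z) (z * s) (b z) χ *
            starRingEnd ℂ (gv M (Cu z') (z' * s') (b z') χ) = 0 := by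
      intro s hs
      refine Finset.sum_eq_zero fun s' hs' => ?_
      rw [co5 ℓ M hM G z z' (hEl z hz) (hEl z' hz') (b z) (b z') (hIx z hz) (hIx z' hz') h0 s
        (mem_rg.1 hs).1 (mem_rg.1 hs).2 s' (mem_rg.1 hs').1 (mem_rg.1 hs').2, mul_zero]
    rw [Finset.sum_eq_zero h1, mul_zero]

end Pool.Agent.PP.TB.H45
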